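import Pool.Agent.Q100.Spec.Main
import Pool.Agent.TH382.HS.Limit

/-!
# The `C^r` closing lemma for fibre motions along flows with specification, over an arbitrary map

`V n = ℝⁿ`, `DiffM n N r = Diff^r(N)`, `strongTop n N r` is its strong (Whitney) `C^r` topology (the
usual one, `N` being compact), `IsPer G z`: `z` is periodic for `G` (`Pool/Agent/H718R2/G0.lean`).
`IsFlow n N ψ`: `ψ` is a smooth action of `ℝ` on `N` (`Pool/Agent/TH290/CL/Flow.lean`).
`NonWand f x`: `x` is a nonwandering point of `f` (`Pool/Agent/W564/SC/Defs.lean`).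
`WeakSpec φ`, `ManyOrbits φ` (`Pool/Agent/Q100/Spec/Flex.lean`): the flow `φ` has the weak
specification property (with periodic orbits) and more than one orbit. Every transitive Anosov flow
(mixing or not) and every basic set of an Axiom A flow which is not a single orbit has these
properties, by the shadowing lemma (not proved here).
`MeanNonneg f τ` (`Pool/Agent/Q100/Spec/Main.lean`): for every `ε > 0` some Birkhoff average of `τ`
is everywhere `≥ -ε`.
-/

set_option autoImplicit false

open scoped Manifold ContDiff Topology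

universe u

namespace Pool.Agent.Results.MP_1e8d1a_an.SpecificationFibres

open Pool.Agent.H718R2.G Pool.Agent.W564.SC Pool.Agent.TH290.CL Pool.Agent.Q100.Spec

/-- `z` lies in a compact invariant set `Θ (X × Y)` of `F`, invariant under a smooth flow `ψ` of `N`
with `ψ_t Θ(x, y) = Θ(x, φ_t y)`, on which `F` is the skew product `(x, y) ↦ (f x, φ_(τ x) y)` over an
ARBITRARY homeomorphism `f`, with a fibre motion along the flow `φ`; `φ` has the weak specification
property, the mean values of `τ` do not change sign, and the first coordinate of `z` is nonwandering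
for `f`. Nothing is required of `F` elsewhere. -/
def IsFibrePoint (n : ℕ) (N : Type u) [TopologicalSpace N] [ChartedSpace (V n) N] (r : ℕ∞)
    (F : DiffM n N r) (z : N) : Prop :=
  ∃ (X Y : Type u) (_ : MetricSpace X) (_ : CompactSpace X) (_ : MetricSpace Y)
    (_ : CompactSpace Y) (ψ : ℝ → N → N) (Θ : X × Y → N) (f : X ≃ₜ X) (τ : X → ℝ) (φ : Flow ℝ Y)
    (x : X) (y : Y),
    IsFlow n N ψ ∧ Topology.IsEmbedding Θ ∧ Continuous τ ∧ WeakSpec φ ∧ ManyOrbits φ ∧
    (∀ t x y, ψ t (Θ (x, y)) = Θ (x, φ t y)) ∧ (∀ x y, F (Θ (x, y)) = Θ (f x, φ (τ x) y)) ∧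
    (MeanNonneg f τ ∨ MeanNonneg f (fun x => -τ x)) ∧ NonWand f x ∧ z = Θ (x, y)

/-- Let `N` be a closed manifold, `1 ≤ r ≤ ∞`, `F ∈ Diff^r(N)` and `z ∈ N`. Suppose that arbitrarily
`C^r`-close to `F` there are diffeomorphisms `F'` (for example `F' = F`) for which `z` is a limit of
points as in `IsFibrePoint` (for example such a point). Then the conclusion of the `C^r` closing lemma
holds for `F` at `z`. -/
theorem result {n : ℕ} {N : Type u} [TopologicalSpace N] [T2Space N] [CompactSpace N]
    [ChartedSpace (V n) N] [IsManifold (𝓡 n) ∞ N] (r : ℕ∞) (hr : 1 ≤ r) (F : DiffM n N r) (z : N)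
    (h : ∀ U : Set (DiffM n N r), IsOpen[strongTop n N r] U → F ∈ U →
      ∃ F' ∈ U, z ∈ closure {y | IsFibrePoint n N r F' y}) :
    ∀ U : Set (DiffM n N r), IsOpen[strongTop n N r] U → F ∈ U → ∃ G ∈ U, IsPer G z := by
  refine Pool.Agent.TH382.HS.closable_of_limit F z fun U hU hFU => ?_
  obtain ⟨F', hF', hz⟩ := h U hU hFU
  refine ⟨F', hF', closure_mono ?_ hz⟩
  rintro y' ⟨X, Y, _, _, _, _, ψ, Θ, f, τ, φ, x, y, h1, h2, h3, h4, h5, h6, h7, h8, h9, h10⟩
  show Pool.Agent.TH382.QC.ClosableAt n N r F' y'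
  rw [h10]
  exact core' hr F' h1 h2 h3 h4 h5 h6 h7 h8 x y h9

/-- Special case: products `F = f × φ_a` (on an invariant set) of an arbitrary map `f` and any time
map of a flow with weak specification; `a = 0` is allowed. -/
theorem product {n : ℕ} {N : Type u} [TopologicalSpace N] [T2Space N] [CompactSpace N]
    [ChartedSpace (V n) N] [IsManifold (𝓡 n) ∞ N] (r : ℕ∞) (hr : 1 ≤ r) (F : DiffM n N r)
    {X Y : Type u} [MetricSpace X] [CompactSpace X] [MetricSpace Y] [CompactSpace Y]
    (ψ : ℝ → N → N) (hψ : IsFlow n N ψ) (Θ : X × Y → N) (hΘ : Topology.IsEmbedding Θ) (f : X ≃ₜ X)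
    (φ : Flow ℝ Y) (hφ : WeakSpec φ) (hφ' : ManyOrbits φ) (a : ℝ)
    (hflow : ∀ t x y, ψ t (Θ (x, y)) = Θ (x, φ t y))
    (hF : ∀ x y, F (Θ (x, y)) = Θ (f x, φ a y)) (x : X) (hx : NonWand f x) (y : Y) :
    ∀ U : Set (DiffM n N r), IsOpen[strongTop n N r] U → F ∈ U → ∃ G ∈ U, IsPer G (Θ (x, y)) := by
  refine core' hr F hψ hΘ (τ := fun _ => a) continuous_const hφ hφ' hflow hF ?_ x y hx
  rcases le_total 0 a with ha | ha
  · left
    intro ε hε
    refine ⟨1, le_rfl, fun x => ?_⟩
    simp only [bsum, Finset.range_one, Finset.sum_singleton, Nat.cast_one, mul_one]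
    linarith
  · right
    intro ε hε
    refine ⟨1, le_rfl, fun x => ?_⟩
    simp only [bsum, Finset.range_one, Finset.sum_singleton, Nat.cast_one, mul_one]
    linarith

end Pool.Agent.Results.MP_1e8d1a_an.SpecificationFibres
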