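import Pool.Agent.Q71.CC.Torus
import Pool.Agent.Q71.CC.Orb

/-!
# The `C^r` closing lemma for torus extensions of arbitrary systems, at points with unsaturated orbit
# closures, and for products of arbitrary maps with circle maps

`V n = ℝⁿ`, `DiffM n N r = Diff^r(N)`, `strongTop n N r` is its strong (Whitney) `C^r` topology (the
usual one, `N` being compact), `IsRec F z`: `z` is recurrent, i.e. `m ↦ F^m z` is not a homeomorphism of
`ℤ` onto its image, `IsPer G z`: `z` is periodic for `G` (`Pool/Agent/H718R2/G0.lean`).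
`NonWand f x`: `x` is a nonwandering point of `f` (`Pool/Agent/W564/SC/Defs.lean`).
`IsFlow n N ψ`: `ψ` is a smooth action of `ℝ` on `N` (`Pool/Agent/TH290/CL/Flow.lean`).
`orbit f z`: the full orbit `{y | f^j z = y or f^j y = z for some j ≥ 0}` of `z` under the bijection `f`
(`Pool/Agent/TH382/QC/Defs.lean`).
`IntV a`: all coordinates of `a ∈ ℝ^d` are integers (`Pool/Agent/Q71/CC/Lat.lean`).
`NotLocked H` (`Pool/Agent/Q71/CC/Rot.lean`): the rotation number of the lift `H` of a circle map is not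
locally constant, i.e. it is changed by arbitrarily small rotations.
-/

set_option autoImplicit false

open scoped Manifold ContDiff Topology

universe u

namespace Pool.Agent.Results.MP_1e8d1a_an.TorusExtensions

open Pool.Agent.H718R2.G Pool.Agent.W564.SC Pool.Agent.TH290.CL Pool.Agent.TH382.QC Q71.CC

/-- `z` is a recurrent point of `F`; a smooth action `R` of `ℝ^d` on `N` commutes with `F` along the
orbit of `z`, and `ℤ^d` fixes `z`, so that `R_{ℝ^d} z` is (the image of) a torus; and for some `α` the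
orbit closure of `z` under `R_{-α} ∘ F` does not contain this torus. Nothing is required of `F` and `R`
elsewhere. -/
def IsUnsaturated (n : ℕ) (N : Type u) [TopologicalSpace N] [ChartedSpace (V n) N] (r : ℕ∞)
    (F : DiffM n N r) (z : N) : Prop :=
  ∃ (d : ℕ) (R : V d → N → N) (α v : V d),
    ContMDiff ((𝓡 d).prod (𝓡 n)) (𝓡 n) ∞ (fun q : V d × N => R q.1 q.2) ∧ (∀ y, R 0 y = y) ∧
    (∀ a b y, R (a + b) y = R a (R b y)) ∧ (∀ a, IntV a → R a z = z) ∧
    (∀ y ∈ orbit F z, ∀ a, F (R a y) = R a (F y)) ∧ IsRec F.toHomeomorph z ∧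
    R v z ∉ closure (orbit (fun y => R (-α) (F y)) z)

/-- `z = Θ (x, c)` lies in an invariant set `Θ (X × S¹)` of `F`, the circles of which are closed orbits
(with unit speed) of a smooth flow `ψ` of `N`, and `F` is the product `(x, c) ↦ (f x, h c)` on this set,
with `f` an ARBITRARY map, for which `x` is nonwandering, and `h` a circle map (with the lift `H`) whose
rotation number is not locally constant. Nothing is required of `F` elsewhere. -/
def IsCircleProduct (n : ℕ) (N : Type u) [TopologicalSpace N] [ChartedSpace (V n) N] (r : ℕ∞)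
    (F : DiffM n N r) (z : N) : Prop :=
  ∃ (X : Type u) (_ : TopologicalSpace X) (_ : T2Space X) (ψ : ℝ → N → N)
    (Θ : X × AddCircle (1 : ℝ) → N) (f : X → X) (H : CircleDeg1Lift) (x : X) (c : AddCircle (1 : ℝ)),
    IsFlow n N ψ ∧ Topology.IsEmbedding Θ ∧ Continuous f ∧ Continuous H ∧ NotLocked H ∧
    (∀ (t : ℝ) x (c : AddCircle (1 : ℝ)), ψ t (Θ (x, c)) = Θ (x, c + (t : AddCircle (1 : ℝ)))) ∧
    (∀ x (t : ℝ), F (Θ (x, (t : AddCircle (1 : ℝ)))) = Θ (f x, ((H t : ℝ) : AddCircle (1 : ℝ)))) ∧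
    NonWand f x ∧ z = Θ (x, c)

/-- Let `N` be a closed manifold, `1 ≤ r ≤ ∞`, `F ∈ Diff^r(N)` and `z ∈ N`. Suppose that arbitrarily
`C^r`-close to `F` there are diffeomorphisms `F'` (for example `F' = F`) for which `z` is a limit of
points as in `IsUnsaturated` or `IsCircleProduct` (for example such a point). Then the conclusion of
the `C^r` closing lemma holds for `F` at `z`. -/
theorem result {n : ℕ} {N : Type u} [TopologicalSpace N] [T2Space N] [CompactSpace N]
    [ChartedSpace (V n) N] [IsManifold (𝓡 n) ∞ N] (r : ℕ∞) (hr : 1 ≤ r) (F : DiffM n N r) (z : N)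
    (h : ∀ U : Set (DiffM n N r), IsOpen[strongTop n N r] U → F ∈ U →
      ∃ F' ∈ U, z ∈ closure {y | IsUnsaturated n N r F' y ∨ IsCircleProduct n N r F' y}) :
    ∀ U : Set (DiffM n N r), IsOpen[strongTop n N r] U → F ∈ U → ∃ G ∈ U, IsPer G z := by
  refine Pool.Agent.TH382.HS.closable_of_limit F z fun U hU hFU => ?_
  obtain ⟨F', hF', hz⟩ := h U hU hFU
  refine ⟨F', hF', closure_mono ?_ hz⟩
  rintro y' (⟨d, R, α, v, h1, h2, h3, h4, h5, h6, h7⟩ |
    ⟨X, _, _, ψ, Θ, f, H, x, c, h1, h2, h3, h4, h5, h6, h7, h8, h9⟩)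
  · exact torus h1 h2 h3 hr F' h4 h5 h6 α v h7
  · rw [h9]
    exact main hr F' h1 H h4 h5 h6 h7 x (long_returns f h3 x h8) c le_rfl
      (GoodCoord.of_comap (h2.isInducing.nhds_eq_comap _).symm)

/-- Special case: `F` commutes with a smooth action `R` of the torus, and the orbit closure of the
recurrent point `z` under `F` does not contain the torus through `z`. -/
theorem torus_symmetry {n d : ℕ} {N : Type u} [TopologicalSpace N] [T2Space N] [CompactSpace N]
    [ChartedSpace (V n) N] [IsManifold (𝓡 n) ∞ N] (r : ℕ∞) (hr : 1 ≤ r) (R : V d → N → N)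
    (hR : IsTorusAct d n N R) (F : DiffM n N r) (hF : ∀ a y, F (R a y) = R a (F y)) (z : N)
    (hz : IsRec F.toHomeomorph z) (v : V d) (hv : R v z ∉ closure (orbit F z)) :
    ∀ U : Set (DiffM n N r), IsOpen[strongTop n N r] U → F ∈ U → ∃ G ∈ U, IsPer G z := by
  refine torus (z := z) hR.smooth hR.zero hR.add hr F (fun a ha => hR.int a ha z)
    (fun y _ a => hF a y) hz 0 v ?_
  have e : (fun y => R (-0) (F y)) = F := by
    funext y
    rw [neg_zero, hR.zero]
  rwa [e]

/-- Special case: circle extensions with bounded deviations. Let `z = Θ (x, c)` be a recurrent point of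
`F`, in an invariant set `Θ (X × S¹)`, the circles of which are closed orbits of period `1` of a smooth
flow, and on which `F (x, c) = (f x, c + τ x)`, with `f` an ARBITRARY homeomorphism and `τ` continuous.
If the Birkhoff sums of `τ` over all pieces of the orbit of `x` have bounded deviations from some
constant drift `α`, then the closing lemma holds for `F` at `z`. -/
theorem bounded_deviations {n : ℕ} {N : Type u} [TopologicalSpace N] [T2Space N] [CompactSpace N]
    [ChartedSpace (V n) N] [IsManifold (𝓡 n) ∞ N] (r : ℕ∞) (hr : 1 ≤ r) (F : DiffM n N r)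
    {X : Type u} [TopologicalSpace X] [T2Space X] [CompactSpace X] (ψ : ℝ → N → N)
    (hψ : IsFlow n N ψ) (Θ : X × AddCircle (1 : ℝ) → N) (hΘ : Topology.IsEmbedding Θ) (f : X ≃ₜ X)
    (τ : X → ℝ) (hτ : Continuous τ)
    (hflow : ∀ (t : ℝ) x (c : AddCircle (1 : ℝ)), ψ t (Θ (x, c)) = Θ (x, c + (t : AddCircle (1 : ℝ))))
    (hF : ∀ x (c : AddCircle (1 : ℝ)), F (Θ (x, c)) = Θ (f x, c + ((τ x : ℝ) : AddCircle (1 : ℝ))))
    (x : X) (c : AddCircle (1 : ℝ)) (hz : IsRec F.toHomeomorph (Θ (x, c))) (α C : ℝ)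
    (hdev : ∀ (k : ℤ) (m : ℕ), |∑ j ∈ Finset.range m, τ (f^[j] ((f ^ k) x)) - m * α| ≤ C) :
    ∀ U : Set (DiffM n N r), IsOpen[strongTop n N r] U → F ∈ U → ∃ G ∈ U, IsPer G (Θ (x, c)) :=
  ext_rec hr F hψ hΘ f hτ hflow hF x (rec_base F hΘ f hF x c hz) hdev c

end Pool.Agent.Results.MP_1e8d1a_an.TorusExtensions
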