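import Pool.Agent.Q100.Spec.Two
import Pool.Agent.TH382.HS.Limit

/-!
# The `C^r` closing lemma for arbitrary cocycles in the time of two flows, over an arbitrary map

`V n = ℝⁿ`, `DiffM n N r = Diff^r(N)`, `strongTop n N r` is its strong (Whitney) `C^r` topology (the
usual one, `N` being compact), `IsPer G z`: `z` is periodic for `G` (`Pool/Agent/H718R2/G0.lean`).
`IsFlow n N ψ`: `ψ` is a smooth action of `ℝ` on `N` (`Pool/Agent/TH290/CL/Flow.lean`).
`NonWand f x`: `x` is a nonwandering point of `f` (`Pool/Agent/W564/SC/Defs.lean`).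
`WeakSpec φ`, `ManyOrbits φ` (`Pool/Agent/Q100/Spec/Flex.lean`): the flow `φ` has the weak
specification property (with periodic orbits) and more than one orbit. Every transitive Anosov flow
(mixing or not) and every basic set of an Axiom A flow which is not a single orbit has these
properties, by the shadowing lemma (not proved here).
-/

set_option autoImplicit false

open scoped Manifold ContDiff Topology

universe u

namespace Pool.Agent.Results.MP_1e8d1a_an.TwoFlowFibres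

open Pool.Agent.H718R2.G Pool.Agent.W564.SC Pool.Agent.TH290.CL Pool.Agent.Q100.Spec

/-- `z` lies in a compact invariant set `Θ (X × Y₁ × Y₂)` of `F`, invariant under smooth flows `ψ₁`, `ψ₂`
of `N` which act on it as flows `φ₁`, `φ₂` of `Y₁`, `Y₂`, on which `F` is the skew product
`(x, y₁, y₂) ↦ (f x, φ₁_(τ₁ x) y₁, φ₂_(τ₂ x) y₂)` over an ARBITRARY homeomorphism `f`, with ARBITRARY
continuous time functions `τ₁`, `τ₂`; `φ₁` and `φ₂` have the weak specification property, and the first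
coordinate of `z` is nonwandering for `f`. Nothing is required of `F` elsewhere. -/
def IsTwoFibrePoint (n : ℕ) (N : Type u) [TopologicalSpace N] [ChartedSpace (V n) N] (r : ℕ∞)
    (F : DiffM n N r) (z : N) : Prop :=
  ∃ (X Y₁ Y₂ : Type u) (_ : MetricSpace X) (_ : CompactSpace X) (_ : MetricSpace Y₁)
    (_ : CompactSpace Y₁) (_ : MetricSpace Y₂) (_ : CompactSpace Y₂) (ψ₁ ψ₂ : ℝ → N → N)
    (Θ : X × (Y₁ × Y₂) → N) (f : X ≃ₜ X) (τ₁ τ₂ : X → ℝ) (φ₁ : Flow ℝ Y₁) (φ₂ : Flow ℝ Y₂)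
    (x : X) (y₁ : Y₁) (y₂ : Y₂),
    IsFlow n N ψ₁ ∧ IsFlow n N ψ₂ ∧ Topology.IsEmbedding Θ ∧ Continuous τ₁ ∧ Continuous τ₂ ∧
    WeakSpec φ₁ ∧ ManyOrbits φ₁ ∧ WeakSpec φ₂ ∧ ManyOrbits φ₂ ∧
    (∀ t x y₁ y₂, ψ₁ t (Θ (x, (y₁, y₂))) = Θ (x, (φ₁ t y₁, y₂))) ∧
    (∀ t x y₁ y₂, ψ₂ t (Θ (x, (y₁, y₂))) = Θ (x, (y₁, φ₂ t y₂))) ∧
    (∀ x y₁ y₂, F (Θ (x, (y₁, y₂))) = Θ (f x, (φ₁ (τ₁ x) y₁, φ₂ (τ₂ x) y₂))) ∧
    NonWand f x ∧ z = Θ (x, (y₁, y₂))

/-- Let `N` be a closed manifold, `1 ≤ r ≤ ∞`, `F ∈ Diff^r(N)` and `z ∈ N`. Suppose that arbitrarily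
`C^r`-close to `F` there are diffeomorphisms `F'` (for example `F' = F`) for which `z` is a limit of
points as in `IsTwoFibrePoint` (for example such a point). Then the conclusion of the `C^r` closing
lemma holds for `F` at `z`. -/
theorem result {n : ℕ} {N : Type u} [TopologicalSpace N] [T2Space N] [CompactSpace N]
    [ChartedSpace (V n) N] [IsManifold (𝓡 n) ∞ N] (r : ℕ∞) (hr : 1 ≤ r) (F : DiffM n N r) (z : N)
    (h : ∀ U : Set (DiffM n N r), IsOpen[strongTop n N r] U → F ∈ U →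
      ∃ F' ∈ U, z ∈ closure {y | IsTwoFibrePoint n N r F' y}) :
    ∀ U : Set (DiffM n N r), IsOpen[strongTop n N r] U → F ∈ U → ∃ G ∈ U, IsPer G z := by
  refine Pool.Agent.TH382.HS.closable_of_limit F z fun U hU hFU => ?_
  obtain ⟨F', hF', hz⟩ := h U hU hFU
  refine ⟨F', hF', closure_mono ?_ hz⟩
  rintro y' ⟨X, Y₁, Y₂, _, _, _, _, _, _, ψ₁, ψ₂, Θ, f, τ₁, τ₂, φ₁, φ₂, x, y₁, y₂, h1, h2, h3, h4,
    h5, h6, h7, h8, h9, h10, h11, h12, h13, h14⟩
  show Pool.Agent.TH382.QC.ClosableAt n N r F' y'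
  rw [h14]
  exact two hr F' h1 h2 h3 h4 h5 h6 h7 h8 h9 h10 h11 h12 x y₁ y₂ h13

end Pool.Agent.Results.MP_1e8d1a_an.TwoFlowFibres
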